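import Pool.Agent.Helper467.FP.P_n2_mul_le

/-!
A noncommutative corner of a tracial von Neumann algebra contains a nonzero element of square zero.
-/

set_option autoImplicit false

open scoped ComplexOrder Topology
open Filter

namespace Pool.Agent.H649G

open Pool.Agent.H467F

/-- the clamp function -/
noncomputable def sqz_cl (a b t : ℝ) : ℝ := max a (min b t)

theorem sqz_cl_cont (a b : ℝ) : Continuous (sqz_cl a b) := by
  unfold sqz_cl
  fun_prop

/-- steps -/
noncomputable def sqz_s (N b : ℝ) (i : ℕ) (t : ℝ) : ℝ := sqz_cl 0 1 (N * (t + b) - i)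

/-- tents -/
noncomputable def sqz_th (N b : ℝ) (i : ℕ) (t : ℝ) : ℝ := sqz_s N b i t - sqz_s N b (i + 1) t

theorem sqz_s_cont (N b : ℝ) (i : ℕ) : Continuous (sqz_s N b i) := by
  unfold sqz_s sqz_cl
  fun_prop

theorem sqz_th_cont (N b : ℝ) (i : ℕ) : Continuous (sqz_th N b i) :=
  (sqz_s_cont N b i).sub (sqz_s_cont N b (i + 1))

theorem sqz_th_nonneg (N b : ℝ) (i : ℕ) (t : ℝ) : 0 ≤ sqz_th N b i t := by
  unfold sqz_th sqz_s sqz_cl
  push_cast
  rw [sub_nonneg]
  refine max_le_max le_rfl (min_le_min le_rfl ?_)
  linarith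

theorem sqz_th_zero_left (N b : ℝ) (i : ℕ) (t : ℝ) (h : N * (t + b) ≤ i) :
    sqz_th N b i t = 0 := by
  unfold sqz_th sqz_s sqz_cl
  push_cast
  rw [min_eq_right (by linarith), min_eq_right (by linarith), max_eq_left (by linarith),
    max_eq_left (by linarith)]
  ring

theorem sqz_th_zero_right (N b : ℝ) (i : ℕ) (t : ℝ) (h : (i : ℝ) + 2 ≤ N * (t + b)) :
    sqz_th N b i t = 0 := by
  unfold sqz_th sqz_s sqz_cl
  push_cast
  rw [min_eq_left (by linarith), min_eq_left (by linarith)]
  norm_num

theorem sqz_sum (N b : ℝ) (n : ℕ) (t : ℝ) (h1 : 1 ≤ N * (t + b)) (h2 : N * (t + b) ≤ n) :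
    ∑ i ∈ Finset.range n, sqz_th N b i t = 1 := by
  have h3 : ∑ i ∈ Finset.range n, sqz_th N b i t = sqz_s N b 0 t - sqz_s N b n t := by
    unfold sqz_th
    exact Finset.sum_range_sub' (fun i => sqz_s N b i t) n
  rw [h3]
  unfold sqz_s sqz_cl
  rw [min_eq_left (by push_cast; linarith), min_eq_right (by linarith),
    max_eq_left (by linarith : N * (t + b) - n ≤ 0)]
  norm_num

/-- square roots of the tents -/
noncomputable def sqz_ph (N b : ℝ) (i : ℕ) (t : ℝ) : ℝ := Real.sqrt (sqz_th N b i t)

theorem sqz_ph_cont (N b : ℝ) (i : ℕ) : Continuous (sqz_ph N b i) :=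
  (sqz_th_cont N b i).sqrt

theorem sqz_ph_sq (N b : ℝ) (i : ℕ) (t : ℝ) : sqz_ph N b i t * sqz_ph N b i t = sqz_th N b i t :=
  Real.mul_self_sqrt (sqz_th_nonneg N b i t)

theorem sqz_ph_supp (N b : ℝ) (i : ℕ) (t : ℝ) (h : sqz_ph N b i t ≠ 0) :
    (i : ℝ) < N * (t + b) ∧ N * (t + b) < i + 2 := by
  constructor
  · by_contra hc
    exact h (by unfold sqz_ph; rw [sqz_th_zero_left _ _ _ _ (not_lt.1 hc)]; simp)
  · by_contra hc
    exact h (by unfold sqz_ph; rw [sqz_th_zero_right _ _ _ _ (not_lt.1 hc)]; simp)

theorem sqz_ph_disj (N b : ℝ) (i j : ℕ) (hij : i + 2 ≤ j ∨ j + 2 ≤ i) (t : ℝ) :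
    sqz_ph N b i t * sqz_ph N b j t = 0 := by
  by_contra hc
  have h1 := sqz_ph_supp N b i t (left_ne_zero_of_mul hc)
  have h2 := sqz_ph_supp N b j t (right_ne_zero_of_mul hc)
  rcases hij with h | h
  · have : (i : ℝ) + 2 ≤ j := by exact_mod_cast h
    linarith
  · have : (j : ℝ) + 2 ≤ i := by exact_mod_cast h
    linarith

variable {A : Type} [CStarAlgebra A] {τ : A →ₗ[ℂ] ℂ}

theorem sqz_sum_sq (h : TW τ) (n : ℕ) (P : ℕ → A) (hP : ∀ i, star (P i) = P i)
    (hs : ∑ i ∈ Finset.range n, P i * P i = 1) (T : A) :
    n2 τ T ^ 2 = ∑ i ∈ Finset.range n, ∑ j ∈ Finset.range n, n2 τ (P i * T * P j) ^ 2 := by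
  have h1 : τ (star T * T) = ∑ i ∈ Finset.range n, ∑ j ∈ Finset.range n,
      τ (star (P i * T * P j) * (P i * T * P j)) := by
    have e1 : star T * T = ∑ i ∈ Finset.range n, ∑ j ∈ Finset.range n,
        star T * (P i * P i) * T * (P j * P j) := by
      have e2 : star T * T = star T * (∑ i ∈ Finset.range n, P i * P i) * T *
          (∑ j ∈ Finset.range n, P j * P j) := by
        rw [hs]; simp
      rw [e2]
      simp only [Finset.mul_sum, Finset.sum_mul]
      rw [Finset.sum_comm]
    rw [e1, map_sum]
    refine Finset.sum_congr rfl fun i _ => ?_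
    rw [map_sum]
    refine Finset.sum_congr rfl fun j _ => ?_
    rw [← mul_assoc, h.comm, star_mul, star_mul, hP, hP]
    simp only [mul_assoc]
  rw [h.n2_sq, h1]
  simp only [Complex.re_sum]
  refine Finset.sum_congr rfl fun i _ => Finset.sum_congr rfl fun j _ => ?_
  rw [h.n2_sq]

theorem sqz_comm (h : TW τ) (x y : A) (hx : IsSelfAdjoint x)
    (H : ∀ g k : ℝ → ℝ, Continuous g → Continuous k → (∀ t, g t * k t = 0) →
      cfc g x * y * cfc k x = 0) : x * y = y * x := by
  have hnt : Nontrivial A := ⟨1, 0, fun h0 => by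
    have h1 := h.one
    rw [h0, map_zero] at h1
    exact zero_ne_one h1⟩
  set b : ℝ := ‖x‖ + 1 with hb
  have hspec : ∀ t ∈ spectrum ℝ x, |t| ≤ ‖x‖ := by
    intro t ht
    have := spectrum.norm_le_norm_of_mem ht
    simpa using this
  have key : ∀ N : ℝ, 1 ≤ N → n2 τ (x * y - y * x) ≤ (6 / N) * n2 τ y := by
    intro N hN
    have hN0 : 0 < N := by linarith
    obtain ⟨n, hn⟩ := exists_nat_ge (N * (‖x‖ + b))
    let P : ℕ → A := fun i => cfc (sqz_ph N b i) x
    have hPs : ∀ i, star (P i) = P i := fun i => (cfc_predicate (sqz_ph N b i) x)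
    have hPc : ∀ i, x * P i = P i * x := fun i => by
      have := (cfc_commute_cfc (id : ℝ → ℝ) (sqz_ph N b i) x)
      have h2 : cfc (id : ℝ → ℝ) x = x := cfc_id ℝ x
      rw [h2] at this
      exact this
    have hPP : ∀ i, P i * P i = cfc (sqz_th N b i) x := by
      intro i
      have := cfc_mul (sqz_ph N b i) (sqz_ph N b i) x
        (sqz_ph_cont N b i).continuousOn (sqz_ph_cont N b i).continuousOn
      rw [← this]
      congr 1
      ext t
      exact sqz_ph_sq N b i t
    have hsum : ∑ i ∈ Finset.range n, P i * P i = 1 := by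
      simp only [hPP]
      rw [← cfc_sum (fun i => sqz_th N b i) x (Finset.range n)
        (fun i _ => (sqz_th_cont N b i).continuousOn)]
      rw [← cfc_one ℝ x]
      refine cfc_congr ?_
      intro t ht
      have h1 := abs_le.1 (hspec t ht)
      have h2 : ∑ i ∈ Finset.range n, sqz_th N b i t = 1 := by
        refine sqz_sum N b n t ?_ ?_
        · nlinarith [h1.1]
        · refine le_trans ?_ hn
          nlinarith [h1.2]
      simpa using h2
    have hd : ∀ i j : ℕ, (i + 2 ≤ j ∨ j + 2 ≤ i) → P i * y * P j = 0 := by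
      intro i j hij
      exact H _ _ (sqz_ph_cont N b i) (sqz_ph_cont N b j) (sqz_ph_disj N b i j hij)
    have hTy : ∀ i j : ℕ, n2 τ (P i * (x * y - y * x) * P j) ≤ (6 / N) * n2 τ (P i * y * P j) := by
      intro i j
      by_cases hij : i + 2 ≤ j ∨ j + 2 ≤ i
      · have e1 : P i * (x * y - y * x) * P j = x * (P i * y * P j) - (P i * y * P j) * x := by
          rw [mul_sub, sub_mul]
          congr 1
          · rw [← mul_assoc (P i) x y, ← hPc i]
            simp only [mul_assoc]
          · simp only [mul_assoc]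
            rw [hPc j]
        rw [e1, hd i j hij]
        simp [n2_zero]
      · push Not at hij
        obtain ⟨h1, h2⟩ := hij
        set lam : ℝ := i / N - b with hlam
        set c : ℝ → ℝ := fun t => sqz_cl (-(3 / N)) (3 / N) (t - lam) with hc
        have hcc : Continuous c := (sqz_cl_cont _ _).comp (by fun_prop)
        have h3N : 0 ≤ 3 / N := by positivity
        have hcn : ‖cfc c x‖ ≤ 3 / N := by
          refine norm_cfc_le h3N ?_
          intro t _
          rw [Real.norm_eq_abs, abs_le]
          simp only [hc, sqz_cl]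
          constructor
          · exact le_max_left _ _
          · refine max_le (by linarith) (min_le_left _ _)
        -- on the supports
        have hsupp : ∀ k : ℕ, i < k + 2 → k < i + 2 → ∀ t, sqz_ph N b k t * (t - lam) =
            sqz_ph N b k t * c t := by
          intro k hk1 hk2 t
          by_cases h0 : sqz_ph N b k t = 0
          · rw [h0]; ring
          · have h4 := sqz_ph_supp N b k t h0
            have h5 : (i : ℝ) ≤ k + 1 := by exact_mod_cast Nat.lt_succ_iff.1 hk1
            have h6 : (k : ℝ) ≤ i + 1 := by exact_mod_cast Nat.lt_succ_iff.1 hk2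
            have h7 : t - lam = (N * (t + b) - i) / N := by
              rw [hlam]; field_simp; ring
            have h8 : -(3 / N) ≤ t - lam := by
              rw [h7, ← neg_div]
              exact div_le_div_of_nonneg_right (by linarith) hN0.le
            have h9 : t - lam ≤ 3 / N := by
              rw [h7]
              exact div_le_div_of_nonneg_right (by linarith) hN0.le
            simp only [hc, sqz_cl]
            rw [min_eq_right h9, max_eq_right h8]
        have hx1 : cfc (fun t : ℝ => t - lam) x = x - algebraMap ℝ A lam := by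
          rw [cfc_sub (fun t : ℝ => t) (fun _ => lam) x]
          · rw [cfc_id' ℝ x, cfc_const lam x]
        have hL : ∀ k : ℕ, i < k + 2 → k < i + 2 →
            P k * (x - algebraMap ℝ A lam) = P k * cfc c x := by
          intro k hk1 hk2
          rw [← hx1, ← cfc_mul (sqz_ph N b k) (fun t : ℝ => t - lam) x
            (sqz_ph_cont N b k).continuousOn (by fun_prop),
            ← cfc_mul (sqz_ph N b k) c x (sqz_ph_cont N b k).continuousOn hcc.continuousOn]
          congr 1
          ext t
          exact hsupp k hk1 hk2 t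
        have hcP : ∀ k, P k * cfc c x = cfc c x * P k := fun k => cfc_commute_cfc _ _ x
        have hR : ∀ k : ℕ, i < k + 2 → k < i + 2 →
            (x - algebraMap ℝ A lam) * P k = cfc c x * P k := by
          intro k hk1 hk2
          have e := hL k hk1 hk2
          have e2 : P k * (x - algebraMap ℝ A lam) = (x - algebraMap ℝ A lam) * P k := by
            rw [mul_sub, sub_mul, hPc k, Algebra.commutes]
          rw [← e2, e, hcP k]
        have e1 : x * y - y * x = (x - algebraMap ℝ A lam) * y - y * (x - algebraMap ℝ A lam) := by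
          rw [sub_mul, mul_sub, Algebra.commutes]
          abel
        have e2 : P i * (x * y - y * x) * P j =
            cfc c x * (P i * y * P j) - (P i * y * P j) * cfc c x := by
          rw [e1, mul_sub, sub_mul]
          congr 1
          · rw [← mul_assoc (P i), hL i (by omega) (by omega), hcP i]
            simp only [mul_assoc]
          · rw [mul_assoc (P i), mul_assoc y, hR j (by omega) (by omega), ← hcP j]
            simp only [mul_assoc]
        rw [e2]
        refine (h.n2_sub_le _ _).trans ?_
        have h10 := (n2_mul_le h (cfc c x) (P i * y * P j)).1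
        have h11 := (n2_mul_le h (cfc c x) (P i * y * P j)).2
        have h12 := n2_nonneg (⇑τ) (P i * y * P j)
        have h13 : ‖cfc c x‖ * n2 τ (P i * y * P j) ≤ 3 / N * n2 τ (P i * y * P j) :=
          mul_le_mul_of_nonneg_right hcn h12
        have h14 : 6 / N * n2 τ (P i * y * P j) = 3 / N * n2 τ (P i * y * P j) +
            3 / N * n2 τ (P i * y * P j) := by ring
        rw [h14]
        linarith
    have h1 := sqz_sum_sq h n P hPs hsum (x * y - y * x)
    have h2 := sqz_sum_sq h n P hPs hsum y
    have h3 : n2 τ (x * y - y * x) ^ 2 ≤ ((6 / N) * n2 τ y) ^ 2 := by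
      rw [mul_pow, h1, h2, Finset.mul_sum]
      refine Finset.sum_le_sum fun i _ => ?_
      rw [Finset.mul_sum]
      refine Finset.sum_le_sum fun j _ => ?_
      rw [← mul_pow]
      exact pow_le_pow_left₀ (n2_nonneg _ _) (hTy i j) 2
    exact abs_le_of_sq_le_sq' h3 (mul_nonneg (by positivity) (n2_nonneg _ _)) |>.2
  have h0 : n2 τ (x * y - y * x) = 0 := by
    refine le_antisymm ?_ (n2_nonneg _ _)
    have hlim : Tendsto (fun N : ℕ => (6 / ((N : ℝ) + 1)) * n2 τ y) atTop (𝓝 (0 * n2 τ y)) := by
      refine Tendsto.mul_const _ ?_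
      have := (tendsto_one_div_add_atTop_nhds_zero_nat (𝕜 := ℝ)).const_mul 6
      rw [mul_zero] at this
      refine this.congr fun N => ?_
      ring
    rw [zero_mul] at hlim
    refine ge_of_tendsto' hlim fun N => ?_
    refine key _ ?_
    have : (0 : ℝ) ≤ N := Nat.cast_nonneg N
    linarith
  exact sub_eq_zero.1 (h.eq_zero h0)

theorem sqz_sa (h : TW τ) (e x y : A)
    (hx : star x = x) (hex : e * x = x) (hxe : x * e = x) (hey : e * y = y) (hye : y * e = y)
    (hxy : x * y ≠ y * x) : ∃ w, w ≠ 0 ∧ w * w = 0 ∧ e * w = w ∧ w * e = w := by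
  by_contra hcon
  push Not at hcon
  refine hxy (sqz_comm h x y hx ?_)
  intro g k hg hk hgk
  have hexc : Commute x e := by
    rw [commute_iff_eq, hex, hxe]
  have hcg : Commute (cfc g x) e := by
    have := hexc.cfc_real g
    exact this
  have hck : Commute (cfc k x) e := hexc.cfc_real k
  by_contra hw
  refine hcon (cfc g x * y * cfc k x) hw ?_ ?_ ?_
  · have e1 : cfc k x * cfc g x = 0 := by
      rw [← cfc_mul k g x hk.continuousOn hg.continuousOn]
      have : (fun t => k t * g t) = fun _ => (0 : ℝ) := by
        ext t; rw [mul_comm]; exact hgk t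
      rw [this]
      exact cfc_const_zero ℝ x
    have e2 : cfc g x * y * cfc k x * (cfc g x * y * cfc k x) =
        cfc g x * y * (cfc k x * cfc g x) * (y * cfc k x) := by
      simp only [mul_assoc]
    rw [e2, e1]
    simp
  · rw [← mul_assoc, ← mul_assoc, ← hcg.eq, mul_assoc (cfc g x) e y, hey]
  · rw [mul_assoc, hck.eq, ← mul_assoc, mul_assoc (cfc g x) y e, hye]

/-- A noncommutative corner contains a nonzero element of square zero. -/
theorem sqz (h : TW τ) (e x y : A) (he : star e = e) (hee : e * e = e)
    (hxy : (e * x * e) * (e * y * e) ≠ (e * y * e) * (e * x * e)) :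
    ∃ w, w ≠ 0 ∧ w * w = 0 ∧ e * w = w ∧ w * e = w := by
  set a := e * x * e with ha
  set b := e * y * e with hb
  have hea : e * a = a := by rw [ha, ← mul_assoc, ← mul_assoc, hee]
  have hae : a * e = a := by rw [ha, mul_assoc, hee]
  have heb : e * b = b := by rw [hb, ← mul_assoc, ← mul_assoc, hee]
  have hbe : b * e = b := by rw [hb, mul_assoc, hee]
  have hesa : e * star a = star a := by
    have := congrArg star hae
    rwa [star_mul, he] at this
  have hsae : star a * e = star a := by
    have := congrArg star hea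
    rwa [star_mul, he] at this
  by_cases h1 : (a + star a) * b = b * (a + star a)
  · -- then `i (a - a*)` does not commute with `b`
    refine sqz_sa h e (Complex.I • (a - star a)) b ?_ ?_ ?_ heb hbe ?_
    · rw [star_smul, star_sub, star_star, Complex.star_def, Complex.conj_I, neg_smul, ← smul_neg,
        neg_sub]
    · rw [mul_smul_comm, mul_sub, hea, hesa]
    · rw [smul_mul_assoc, sub_mul, hae, hsae]
    · intro h2
      rw [smul_mul_assoc, mul_smul_comm] at h2
      have h3 : (a - star a) * b = b * (a - star a) :=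
        smul_right_injective A Complex.I_ne_zero h2
      apply hxy
      have h4 : (2 : ℂ) • (a * b) = (2 : ℂ) • (b * a) := by
        have e1 : (2 : ℂ) • (a * b) = (a + star a) * b + (a - star a) * b := by
          rw [two_smul, add_mul, sub_mul]; abel
        have e2 : (2 : ℂ) • (b * a) = b * (a + star a) + b * (a - star a) := by
          rw [two_smul, mul_add, mul_sub]; abel
        rw [e1, e2, h1, h3]
      exact smul_right_injective A (two_ne_zero) h4
  · refine sqz_sa h e (a + star a) b ?_ ?_ ?_ heb hbe h1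
    · rw [star_add, star_star, add_comm]
    · rw [mul_add, hea, hesa]
    · rw [add_mul, hae, hsae]

end Pool.Agent.H649G
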