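import Mathlib
import Pool.Agent.H735G.Defs
import Pool.Agent.Helper467.FP.P_isClosed_of_isW
import Pool.Agent.Helper467.FP.P_n2_mul_le
import Pool.Agent.Helper467.FP.P_tau_bounds
import Pool.Agent.Helper467.FP.P_exists_closure

/-!
Relative commutants of anticommuting symmetries in an abstract tracial von Neumann algebra.
-/

set_option autoImplicit false

open scoped ComplexOrder Topology
open Filter

namespace Pool.Agent.H649G

open Pool.Agent.H467F Pool.Agent.H735G

variable {A : Type} [CStarAlgebra A] {τ : A →ₗ[ℂ] ℂ}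

/-- The restriction of `τ` to a star subalgebra. -/
noncomputable def rt (τ : A →ₗ[ℂ] ℂ) (S : StarSubalgebra ℂ A) : S →ₗ[ℂ] ℂ where
  toFun x := τ x
  map_add' x y := by simp
  map_smul' c x := by simp

@[simp] theorem rt_apply (τ : A →ₗ[ℂ] ℂ) (S : StarSubalgebra ℂ A) (x : S) :
    rt τ S x = τ (x : A) := rfl

/-- A von Neumann subalgebra as a C*-algebra. -/
@[reducible] noncomputable def cs (h : TW τ) (S : StarSubalgebra ℂ A) (hS : IsW τ S) :
    CStarAlgebra S :=
  StarSubalgebra.cstarAlgebra (h_closed := isClosed_of_isW h S hS) S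

theorem n2_rt (τ : A →ₗ[ℂ] ℂ) (S : StarSubalgebra ℂ A) (x : S) :
    n2 (rt τ S) x = n2 τ (x : A) := by
  unfold n2
  simp

/-- The limit of a 2-norm convergent sequence of a von Neumann subalgebra is in it. -/
theorem mem_of_tendsto (S : StarSubalgebra ℂ A) (hS : IsW τ S) (x : ℕ → A) (hx : ∀ n, x n ∈ S)
    (y : A) (hy : Tendsto (fun n => n2 τ (x n - y)) atTop (𝓝 0)) : y ∈ S := by
  refine hS y ?_
  intro ε hε
  have h1 := (hy.eventually (gt_mem_nhds hε)).exists
  obtain ⟨n, hn⟩ := h1
  exact ⟨x n, hx n, by rwa [n2_sub_comm]⟩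

theorem tw_rt (h : TW τ) (S : StarSubalgebra ℂ A) (hS : IsW τ S) :
    @TW S (cs h S hS) (rt τ S) := by
  let _ := cs h S hS
  refine ⟨?_, ?_, ?_, ?_, ?_, ?_⟩
  · simpa using h.one
  · intro x y
    simpa using h.comm x y
  · intro x
    simpa using h.nonneg (x : A)
  · intro x
    simpa using h.conj (x : A)
  · intro x hx
    have h1 : τ (star (x : A) * (x : A)) = 0 := by simpa using hx
    exact Subtype.ext (h.faithful _ h1)
  · intro x hx hx2
    obtain ⟨y, hy, hy2⟩ := h.complete (fun n => (x n : A)) (fun n => hx n) (by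
      intro n
      have := hx2 n
      rw [n2_rt] at this
      simpa using this)
    have hyS : y ∈ S := mem_of_tendsto S hS _ (fun n => (x n).2) y hy2
    refine ⟨⟨y, hyS⟩, hy, ?_⟩
    refine hy2.congr ?_
    intro n
    rw [n2_rt]
    simp

theorem sep_rt (h : TW τ) (hsep : SepT τ) (S : StarSubalgebra ℂ A) (hS : IsW τ S) :
    @SepT S (cs h S hS) (rt τ S) := by
  classical
  obtain ⟨s, hs⟩ := hsep
  -- for every pair `(n, k)` choose a point of `S` at distance `< 1/(k+1)` from `s n`
  let c : ℕ × ℕ → S := fun p =>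
    if hp : ∃ y : S, n2 τ ((y : A) - s p.1) < 1 / ((p.2 : ℝ) + 1) then hp.choose else 0
  have hc : ∀ p : ℕ × ℕ, (∃ y : S, n2 τ ((y : A) - s p.1) < 1 / ((p.2 : ℝ) + 1)) →
      n2 τ ((c p : A) - s p.1) < 1 / ((p.2 : ℝ) + 1) := by
    intro p hp
    have : c p = hp.choose := by simp only [c, dif_pos hp]
    rw [this]
    exact hp.choose_spec
  refine ⟨fun n => c (Nat.unpair n), ?_⟩
  intro x ε hε
  obtain ⟨k, hk⟩ := exists_nat_one_div_lt (show 0 < ε / 2 by linarith)
  obtain ⟨n, hn⟩ := hs (x : A) (1 / ((k : ℝ) + 1)) (by positivity)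
  have h1 := hc (n, k) ⟨x, hn⟩
  refine ⟨Nat.pair n k, ?_⟩
  rw [n2_rt]
  simp only [Nat.unpair_pair]
  have h2 := h.n2_tri (x : A) (s n) (c (n, k) : A)
  rw [n2_sub_comm τ (s n)] at h2
  have h3 : ((x - c (n, k) : S) : A) = (x : A) - (c (n, k) : A) := by simp
  rw [h3]
  exact lt_of_le_of_lt h2 (by simp only at h1; linarith)

/-- Two anticommuting symmetries. -/
structure Pair (s t : A) : Prop where
  ss : star s = s
  ts : star t = t
  s2 : s * s = 1
  t2 : t * t = 1
  st : s * t = -(t * s)

/-- The relative commutant of a self-adjoint pair. -/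
def RC (s t : A) : StarSubalgebra ℂ A := StarSubalgebra.centralizer ℂ ({s, t} : Set A)

theorem mem_RC {s t : A} (hs : star s = s) (ht : star t = t) {x : A} :
    x ∈ RC s t ↔ s * x = x * s ∧ t * x = x * t := by
  unfold RC
  rw [StarSubalgebra.mem_centralizer_iff]
  constructor
  · intro hx
    exact ⟨(hx s (by simp)).1, (hx t (by simp)).1⟩
  · rintro ⟨h1, h2⟩ g hg
    rcases hg with rfl | hg
    · exact ⟨h1, by rw [hs]; exact h1⟩
    · rw [Set.mem_singleton_iff] at hg
      subst hg
      exact ⟨h2, by rw [ht]; exact h2⟩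

theorem cl_comm (h : TW τ) (S : Set A) (s : A) (hs : ∀ y ∈ S, s * y = y * s) (x : A)
    (hx : x ∈ Cl τ S) : s * x = x * s := by
  have h1 : n2 τ (s * x - x * s) = 0 := by
    refine le_antisymm ?_ (n2_nonneg _ _)
    refine le_of_forall_pos_le_add ?_
    intro ε hε
    obtain ⟨y, hy, hxy⟩ := hx (ε / (2 * (‖s‖ + 1))) (by positivity)
    have e : s * x - x * s = s * (x - y) - (x - y) * s := by
      have := hs y hy
      rw [mul_sub, sub_mul, this]
      abel
    rw [e]
    have h2 := h.n2_sub_le (s * (x - y)) ((x - y) * s)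
    have h3 := (n2_mul_le h s (x - y)).1
    have h4 := (n2_mul_le h s (x - y)).2
    have h5 : ‖s‖ * n2 τ (x - y) ≤ (‖s‖ + 1) * (ε / (2 * (‖s‖ + 1))) :=
      mul_le_mul (by linarith) hxy.le (n2_nonneg _ _) (by positivity)
    have h6 : (‖s‖ + 1) * (ε / (2 * (‖s‖ + 1))) = ε / 2 := by
      field_simp
    linarith
  exact sub_eq_zero.1 (h.eq_zero h1)

theorem isW_RC (h : TW τ) {s t : A} (hs : star s = s) (ht : star t = t) : IsW τ (RC s t) := by
  intro x hx
  rw [mem_RC hs ht]
  exact ⟨cl_comm h _ s (fun y hy => ((mem_RC hs ht).1 hy).1) x hx,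
    cl_comm h _ t (fun y hy => ((mem_RC hs ht).1 hy).2) x hx⟩

/-- The abelian projection property is inherited by the relative commutant of a pair. -/
theorem noab_RC (h : TW τ) (hA : NoAbA A) {s t : A} (hp : Pair s t) :
    @NoAbA (RC s t) (cs h (RC s t) (isW_RC h hp.ss hp.ts)) := by
  intro e he hee he0
  have hts : t * s = -(s * t) := by rw [hp.st, neg_neg]
  -- the element `e₁ = e (1+s)/2`
  have he' : star (e : A) = e := by
    have := congrArg (fun z : RC s t => (z : A)) he
    simpa using this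
  have hee' : (e : A) * e = e := by
    have := congrArg (fun z : RC s t => (z : A)) hee
    simpa using this
  have hes : s * (e : A) = e * s := ((mem_RC hp.ss hp.ts).1 e.2).1
  have het : t * (e : A) = e * t := ((mem_RC hp.ss hp.ts).1 e.2).2
  set q : A := (1 / 2 : ℂ) • (1 + s) with hq
  have hqs : star q = q := by
    rw [hq, star_smul, star_add, star_one, hp.ss]
    congr 1
    norm_num
  have hqq : q * q = q := by
    have h1 : (1 + s) * (1 + s) = (2 : ℂ) • (1 + s) := by
      have h2 : (1 + s) * (1 + s) = 1 + s + (s + s * s) := by noncomm_ring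
      rw [h2, hp.s2, two_smul]
      abel
    rw [hq, smul_mul_smul_comm, h1, smul_smul]
    norm_num
  have hqt : t * q = (1 - q) * t := by
    rw [hq]
    have : (1 : A) - (1 / 2 : ℂ) • (1 + s) = (1 / 2 : ℂ) • (1 - s) := by
      rw [smul_add, smul_sub]
      have h2 : (1 : A) = (1 / 2 : ℂ) • (1 : A) + (1 / 2 : ℂ) • (1 : A) := by
        rw [← add_smul]; norm_num
      nth_rewrite 1 [h2]
      abel
    rw [this, mul_smul_comm, smul_mul_assoc, mul_add, sub_mul, hts, mul_one, one_mul,
      ← sub_eq_add_neg]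
  have hqe : q * (e : A) = e * q := by
    rw [hq, smul_mul_assoc, mul_smul_comm, add_mul, mul_add, hes, one_mul, mul_one]
  -- `t q t = 1 - q`
  have hqt' : q * t = t * (1 - q) := by
    have := congrArg star hqt
    rw [star_mul, star_mul, star_sub, star_one, hqs, hp.ts] at this
    exact this
  obtain ⟨e1, he1⟩ : ∃ z : A, z = q * e := ⟨_, rfl⟩
  have he1s : star e1 = e1 := by rw [he1, star_mul, he', hqs, hqe]
  have he1e1 : e1 * e1 = e1 := by
    rw [he1]
    calc q * (e : A) * (q * e) = q * (e * q) * e := by noncomm_ring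
      _ = q * (q * e) * e := by rw [hqe]
      _ = (q * q) * (e * e) := by noncomm_ring
      _ = q * e := by rw [hqq, hee']
  have he10 : e1 ≠ 0 := by
    intro h0
    apply he0
    have h1 : t * (q * (e : A)) * t = 0 := by rw [← he1, h0]; simp
    have h2 : t * (q * (e : A)) * t = (1 - q) * e := by
      calc t * (q * (e : A)) * t = (t * q) * (e * t) := by noncomm_ring
        _ = ((1 - q) * t) * (t * e) := by rw [hqt, het]
        _ = (1 - q) * (t * t) * e := by noncomm_ring
        _ = (1 - q) * e := by rw [hp.t2, mul_one]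
    rw [h2] at h1
    have h3 : (e : A) = q * e + (1 - q) * e := by noncomm_ring
    have h4 : (e : A) = 0 := by
      rw [h3, h1, add_zero, ← he1]
      exact h0
    exact Subtype.ext h4
  obtain ⟨x, y, hxy⟩ := hA e1 he1s he1e1 he10
  -- lift of an element of the corner
  have lift : ∀ z : A, ∃ w : RC s t, (w : A) = e1 * z * e1 + t * (e1 * z * e1) * t := by
    intro z
    refine ⟨⟨e1 * z * e1 + t * (e1 * z * e1) * t, ?_⟩, rfl⟩
    rw [mem_RC hp.ss hp.ts]
    have hse1 : s * e1 = e1 := by
      have hsq : s * q = q := by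
        rw [hq, mul_smul_comm, mul_add, mul_one, hp.s2, add_comm]
      rw [he1, ← mul_assoc, hsq]
    have he1s' : e1 * s = e1 := by
      have hsq : q * s = q := by
        rw [hq, smul_mul_assoc, add_mul, one_mul, hp.s2, add_comm]
      rw [he1, mul_assoc, ← hes, ← mul_assoc, hsq]
    constructor
    · rw [mul_add, add_mul]
      congr 1
      · calc s * (e1 * z * e1) = (s * e1) * z * e1 := by noncomm_ring
          _ = e1 * z * (e1 * s) := by rw [hse1, he1s']
          _ = _ := by noncomm_ring
      · calc s * (t * (e1 * z * e1) * t) = (s * t) * (e1 * z * e1) * t := by noncomm_ring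
          _ = -(t * (s * e1) * z * e1 * t) := by rw [hp.st]; noncomm_ring
          _ = -(t * e1 * z * (e1 * s) * t) := by rw [hse1, he1s']
          _ = t * (e1 * z * e1) * (-(s * t)) := by noncomm_ring
          _ = t * (e1 * z * e1) * (t * s) := by rw [hts]
          _ = _ := by noncomm_ring
    · rw [mul_add, add_mul]
      have h1 : t * (t * (e1 * z * e1) * t) = (e1 * z * e1) * t := by
        calc t * (t * (e1 * z * e1) * t) = (t * t) * (e1 * z * e1) * t := by noncomm_ring
          _ = _ := by rw [hp.t2, one_mul]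
      have h2 : t * (e1 * z * e1) * t * t = t * (e1 * z * e1) := by
        rw [mul_assoc, hp.t2, mul_one]
      rw [h1, h2]
      abel
  obtain ⟨a, ha⟩ := lift x
  obtain ⟨b, hb⟩ := lift y
  refine ⟨a, b, ?_⟩
  intro hcomm
  apply hxy
  have hc : (e : A) * a * e * (e * b * e) = e * b * e * (e * a * e) := by
    have := congrArg (fun z : RC s t => (z : A)) hcomm
    simpa using this
  -- multiply by `q` on both sides
  have hqt1 : q * (t * e1) = 0 := by
    calc q * (t * e1) = (q * t) * (q * e) := by rw [he1]; noncomm_ring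
      _ = t * ((1 - q) * q) * e := by rw [hqt']; noncomm_ring
      _ = 0 := by rw [sub_mul, one_mul, hqq, sub_self]; simp
  have ht1q : (e1 * t) * q = 0 := by
    calc (e1 * t) * q = e1 * (t * q) := by noncomm_ring
      _ = (e * q) * ((1 - q) * t) := by rw [hqt, he1, hqe]
      _ = e * (q * (1 - q)) * t := by noncomm_ring
      _ = 0 := by rw [mul_sub, mul_one, hqq, sub_self]; simp
  have hqe1 : q * e1 = e1 := by rw [he1, ← mul_assoc, hqq]
  have he1q : e1 * q = e1 := by rw [he1, mul_assoc, ← hqe, ← mul_assoc, hqq]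
  have hee1 : (e : A) * e1 = e1 := by rw [he1, hqe, ← mul_assoc, hee']
  have he1e : e1 * (e : A) = e1 := by rw [he1, mul_assoc, hee']
  have key : ∀ (w : RC s t) (z : A), (w : A) = e1 * z * e1 + t * (e1 * z * e1) * t →
      q * ((e : A) * w * e) = e1 * z * e1 ∧ ((e : A) * w * e) * q = e1 * z * e1 := by
    intro w z hw
    have hte : (e : A) * t = t * e := het.symm
    have h1 : (e : A) * w * e = e1 * z * e1 + t * (e1 * z * e1) * t := by
      rw [hw]
      calc (e : A) * (e1 * z * e1 + t * (e1 * z * e1) * t) * e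
          = (e * e1) * z * (e1 * e) + (e * t) * e1 * z * e1 * (t * e) := by noncomm_ring
        _ = e1 * z * e1 + (t * e) * e1 * z * e1 * (e * t) := by rw [hee1, he1e, hte, ← hte]
        _ = e1 * z * e1 + t * (e * e1) * z * (e1 * e) * t := by noncomm_ring
        _ = e1 * z * e1 + t * (e1 * z * e1) * t := by rw [hee1, he1e]; noncomm_ring
    rw [h1]
    constructor
    · calc q * (e1 * z * e1 + t * (e1 * z * e1) * t)
          = (q * e1) * z * e1 + (q * (t * e1)) * z * e1 * t := by noncomm_ring
        _ = e1 * z * e1 := by rw [hqe1, hqt1]; simp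
    · calc (e1 * z * e1 + t * (e1 * z * e1) * t) * q
          = e1 * z * (e1 * q) + t * e1 * z * ((e1 * t) * q) := by noncomm_ring
        _ = e1 * z * e1 := by rw [he1q, ht1q]; simp
  have k1 := key a x ha
  have k2 := key b y hb
  calc (e1 * x * e1) * (e1 * y * e1) = (q * ((e : A) * a * e)) * (((e : A) * b * e) * q) := by
        rw [k1.1, k2.2]
    _ = q * ((e : A) * a * e * (e * b * e)) * q := by noncomm_ring
    _ = q * (e * b * e * (e * a * e)) * q := by rw [hc]
    _ = (q * ((e : A) * b * e)) * (((e : A) * a * e) * q) := by noncomm_ring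
    _ = (e1 * y * e1) * (e1 * x * e1) := by rw [k2.1, k1.2]

end Pool.Agent.H649G
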