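import Pool.Agent.H649G.RelComm

/-!
The 2 by 2 matrix trick: four generators of the relative commutant of a pair give one generator.
-/

set_option autoImplicit false

open scoped ComplexOrder Topology
open Filter

namespace Pool.Agent.H649G

open Pool.Agent.H467F Pool.Agent.H735G

variable {A : Type} [CStarAlgebra A] {τ : A →ₗ[ℂ] ℂ}

/-- The polynomial `3 x² - 2 x³`. -/
noncomputable def P3 (x : A) : A := (3 : ℂ) • (x * x) - (2 : ℂ) • (x * x * x)

theorem P3_norm (x : A) (hx : ‖x‖ ≤ 1 / 4) : ‖P3 x‖ ≤ 7 / 8 * ‖x‖ := by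
  unfold P3
  have h1 : ‖x * x‖ ≤ ‖x‖ * ‖x‖ := norm_mul_le _ _
  have h2 : ‖x * x * x‖ ≤ ‖x‖ * ‖x‖ * ‖x‖ :=
    (norm_mul_le _ _).trans (mul_le_mul_of_nonneg_right h1 (norm_nonneg _))
  have h3 := norm_sub_le ((3 : ℂ) • (x * x)) ((2 : ℂ) • (x * x * x))
  rw [norm_smul, norm_smul] at h3
  have h4 : ‖(3 : ℂ)‖ = 3 := by norm_num
  have h5 : ‖(2 : ℂ)‖ = 2 := by norm_num
  rw [h4, h5] at h3
  have h0 := norm_nonneg x
  have h6 : ‖x‖ * ‖x‖ ≤ 1 / 4 * ‖x‖ := mul_le_mul_of_nonneg_right hx h0
  have h7 : ‖x‖ * ‖x‖ * ‖x‖ ≤ 1 / 16 * ‖x‖ := by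
    have : ‖x‖ * ‖x‖ ≤ 1 / 4 * (1 / 4) := mul_le_mul hx hx h0 (by norm_num)
    calc ‖x‖ * ‖x‖ * ‖x‖ ≤ (1 / 4 * (1 / 4)) * ‖x‖ := mul_le_mul_of_nonneg_right this h0
      _ = _ := by norm_num
  linarith

theorem P3_iter_norm (x : A) (hx : ‖x‖ ≤ 1 / 4) (n : ℕ) :
    ‖P3^[n] x‖ ≤ (7 / 8) ^ n * (1 / 4) := by
  induction n with
  | zero => simpa using hx
  | succ n ih =>
    rw [Function.iterate_succ_apply']
    have h1 : (7 / 8 : ℝ) ^ n ≤ 1 := pow_le_one₀ (by norm_num) (by norm_num)
    have h2 := P3_norm (P3^[n] x) (ih.trans (by linarith))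
    rw [pow_succ]
    linarith

theorem P3_one_sub (b : A) : P3 (1 - b) = 1 - P3 b := by
  unfold P3
  have h1 : (1 - b) * (1 - b) = 1 - b - b + b * b := by noncomm_ring
  have h2 : (1 - b) * (1 - b) * (1 - b) = 1 - b - b - b + b * b + b * b + b * b - b * b * b := by
    noncomm_ring
  rw [h2, h1]
  have h3 : (3 : ℂ) = 1 + 1 + 1 := by norm_num
  have h4 : (2 : ℂ) = 1 + 1 := by norm_num
  rw [h3, h4]
  simp only [add_smul, one_smul]
  abel

theorem P3_split (e f a b : A) (he : e * e = e) (hf : f * f = f) (hef : e * f = 0)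
    (hfe : f * e = 0) (hea : e * a = a * e) (hfb : f * b = b * f) :
    P3 (e * a + f * b) = e * P3 a + f * P3 b := by
  have h2 : (e * a + f * b) * (e * a + f * b) = e * (a * a) + f * (b * b) := by
    calc (e * a + f * b) * (e * a + f * b)
        = e * (a * e) * a + e * (a * (f * b)) + f * (b * (e * a)) + f * (b * f) * b := by
          noncomm_ring
      _ = e * (e * a) * a + e * (a * (b * f)) + f * (b * (a * e)) + f * (f * b) * b := by
          rw [hea, hfb]
      _ = (e * e) * a * a + e * a * (b * f) + f * b * (a * e) + (f * f) * b * b := by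
          noncomm_ring
      _ = (e * e) * a * a + a * e * (f * b) + b * f * (e * a) + (f * f) * b * b := by
          rw [hea, hfb]
      _ = (e * e) * a * a + a * (e * f) * b + b * (f * e) * a + (f * f) * b * b := by
          noncomm_ring
      _ = e * (a * a) + f * (b * b) := by
          rw [he, hf, hef, hfe]
          noncomm_ring
  have h3 : (e * a + f * b) * (e * a + f * b) * (e * a + f * b) =
      e * (a * a * a) + f * (b * b * b) := by
    rw [h2]
    have c1 : e * (a * a) = a * a * e := by
      rw [← mul_assoc, hea, mul_assoc, hea, mul_assoc]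
    have c2 : f * (b * b) = b * b * f := by
      rw [← mul_assoc, hfb, mul_assoc, hfb, mul_assoc]
    calc (e * (a * a) + f * (b * b)) * (e * a + f * b)
        = (a * a * e + b * b * f) * (e * a + f * b) := by rw [c1, c2]
      _ = a * a * (e * e) * a + a * a * (e * f) * b + b * b * (f * e) * a
          + b * b * (f * f) * b := by noncomm_ring
      _ = (a * a * e) * a + (b * b * f) * b := by
          rw [he, hf, hef, hfe]
          noncomm_ring
      _ = (e * (a * a)) * a + (f * (b * b)) * b := by rw [c1, c2]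
      _ = _ := by noncomm_ring
  unfold P3
  rw [h3, h2]
  simp only [mul_sub, mul_smul_comm, smul_add]
  abel

/-- The four element trick. -/
theorem gen_pair (h : TW τ) {s t : A} (hp : Pair s t) (y : Fin 4 → A)
    (hy : ∀ i, star (y i) = y i) (hyB : ∀ i, y i ∈ RC s t) (hn : ∀ i, ‖y i‖ ≤ 1 / 4)
    (hgen : ∀ x ∈ RC s t, x ∈ Cl τ (StarAlgebra.adjoin ℂ (Set.range y) : Set A)) :
    ∃ T : A, GenT τ {T} := by
  classical
  have hts : t * s = -(s * t) := by rw [hp.st, neg_neg]
  obtain ⟨e, he⟩ : ∃ e : A, e = (1 / 2 : ℂ) • (1 + s) := ⟨_, rfl⟩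
  obtain ⟨f, hf⟩ : ∃ f : A, f = (1 / 2 : ℂ) • (1 - s) := ⟨_, rfl⟩
  have hef1 : e + f = 1 := by
    rw [he, hf, ← smul_add]
    have : (1 : A) + s + (1 - s) = (2 : ℂ) • (1 : A) := by rw [two_smul]; abel
    rw [this, smul_smul]
    norm_num
  have hsef : s = e - f := by
    rw [he, hf, ← smul_sub]
    have : (1 : A) + s - (1 - s) = (2 : ℂ) • s := by rw [two_smul]; abel
    rw [this, smul_smul]
    norm_num
  have hee : e * e = e := by
    have h1 : (1 + s) * (1 + s) = (2 : ℂ) • (1 + s) := by
      have h2 : (1 + s) * (1 + s) = 1 + s + (s + s * s) := by noncomm_ring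
      rw [h2, hp.s2, two_smul]
      abel
    rw [he, smul_mul_smul_comm, h1, smul_smul]
    norm_num
  have hf1 : f = 1 - e := by rw [← hef1]; abel
  have hff : f * f = f := by
    rw [hf1]
    have : (1 - e) * (1 - e) = 1 - e - e + e * e := by noncomm_ring
    rw [this, hee]
    abel
  have hef : e * f = 0 := by rw [hf1, mul_sub, mul_one, hee, sub_self]
  have hfe : f * e = 0 := by rw [hf1, sub_mul, one_mul, hee, sub_self]
  have hse : star e = e := by
    rw [he, star_smul, star_add, star_one, hp.ss]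
    congr 1
    norm_num
  have hsf : star f = f := by rw [hf1, star_sub, star_one, hse]
  -- `t` exchanges `e` and `f`
  have hte : t * e = f * t := by
    rw [he, hf, mul_smul_comm, smul_mul_assoc, mul_add, sub_mul, hts, mul_one, one_mul,
      ← sub_eq_add_neg]
  have htf : t * f = e * t := by
    rw [hf1, mul_sub, mul_one, hte, hf1, sub_mul, one_mul]
    abel
  have hcom : ∀ b ∈ RC s t, e * b = b * e ∧ f * b = b * f ∧ t * b = b * t := by
    intro b hb
    obtain ⟨h1, h2⟩ := (mem_RC hp.ss hp.ts).1 hb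
    have h3 : e * b = b * e := by
      rw [he, smul_mul_assoc, mul_smul_comm, add_mul, mul_add, h1, one_mul, mul_one]
    refine ⟨h3, ?_, h2⟩
    rw [hf1, sub_mul, mul_sub, h3, one_mul, mul_one]
  -- the generator
  obtain ⟨T1, hT1⟩ : ∃ T1 : A, T1 = e * y 0 + f * (1 - y 1) := ⟨_, rfl⟩
  obtain ⟨T2, hT2⟩ : ∃ T2 : A, T2 = e * y 2 + f * y 3 + t := ⟨_, rfl⟩
  have hsT1 : star T1 = T1 := by
    rw [hT1, star_add, star_mul, star_mul, star_sub, star_one, hy, hy, hse, hsf,
      ← (hcom _ (hyB 0)).1, sub_mul, mul_sub, ← (hcom _ (hyB 1)).2.1, one_mul, mul_one]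
  have hsT2 : star T2 = T2 := by
    rw [hT2, star_add, star_add, star_mul, star_mul, hy, hy, hse, hsf, hp.ts,
      ← (hcom _ (hyB 2)).1, ← (hcom _ (hyB 3)).2.1]
  refine ⟨T1 + Complex.I • T2, ?_⟩
  obtain ⟨S, hSc, hSW, hSle⟩ := exists_closure h
    (StarAlgebra.adjoin ℂ ({T1 + Complex.I • T2} : Set A))
  have hcl : IsClosed (S : Set A) := isClosed_of_isW h S hSW
  have hT : T1 + Complex.I • T2 ∈ S := hSle (StarAlgebra.self_mem_adjoin_singleton ℂ _)
  have hTs : T1 - Complex.I • T2 ∈ S := by
    have h1 : star (T1 + Complex.I • T2) ∈ S := star_mem hT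
    rw [star_add, star_smul, hsT1, hsT2] at h1
    have h2 : star Complex.I = -Complex.I := Complex.conj_I
    rw [h2, neg_smul, ← sub_eq_add_neg] at h1
    exact h1
  have hT1S : T1 ∈ S := by
    have h1 : T1 = (1 / 2 : ℂ) • ((T1 + Complex.I • T2) + (T1 - Complex.I • T2)) := by
      have : (T1 + Complex.I • T2) + (T1 - Complex.I • T2) = (2 : ℂ) • T1 := by
        rw [two_smul]; abel
      rw [this, smul_smul]
      norm_num
    rw [h1]
    exact S.smul_mem (S.add_mem hT hTs) _
  have hT2S : T2 ∈ S := by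
    have h1 : T2 = (-Complex.I / 2 : ℂ) • ((T1 + Complex.I • T2) - (T1 - Complex.I • T2)) := by
      have : (T1 + Complex.I • T2) - (T1 - Complex.I • T2) = (2 * Complex.I : ℂ) • T2 := by
        rw [two_mul, add_smul]; abel
      rw [this, smul_smul]
      have h3 : (-Complex.I / 2 * (2 * Complex.I) : ℂ) = 1 := by
        have := Complex.I_mul_I
        linear_combination -this
      rw [h3, one_smul]
    rw [h1]
    exact S.smul_mem (S.sub_mem hT hTs) _
  have hP3S : ∀ x ∈ S, P3 x ∈ S := by
    intro x hx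
    unfold P3
    exact S.sub_mem (S.smul_mem (S.mul_mem hx hx) _)
      (S.smul_mem (S.mul_mem (S.mul_mem hx hx) hx) _)
  have hP3R : ∀ x ∈ RC s t, P3 x ∈ RC s t := by
    intro x hx
    unfold P3
    exact (RC s t).sub_mem ((RC s t).smul_mem ((RC s t).mul_mem hx hx) _)
      ((RC s t).smul_mem ((RC s t).mul_mem ((RC s t).mul_mem hx hx) hx) _)
  have hitR : ∀ n, ∀ x ∈ RC s t, P3^[n] x ∈ RC s t := by
    intro n
    induction n with
    | zero => intro x hx; simpa using hx
    | succ n ih =>
      intro x hx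
      rw [Function.iterate_succ_apply']
      exact hP3R _ (ih x hx)
  have hit : ∀ n, P3^[n] T1 = e * P3^[n] (y 0) + f * (1 - P3^[n] (y 1)) := by
    intro n
    induction n with
    | zero => simpa using hT1
    | succ n ih =>
      rw [Function.iterate_succ_apply', ih, Function.iterate_succ_apply',
        Function.iterate_succ_apply']
      have h1 := hcom _ (hitR n _ (hyB 0))
      have h2 := hcom _ (hitR n _ (hyB 1))
      rw [P3_split e f _ _ hee hff hef hfe h1.1 (by
        rw [mul_sub, sub_mul, h2.2.1, mul_one, one_mul]), P3_one_sub]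
  have hitS : ∀ n, P3^[n] T1 ∈ S := by
    intro n
    induction n with
    | zero => simpa using hT1S
    | succ n ih =>
      rw [Function.iterate_succ_apply']
      exact hP3S _ ih
  have hfS : f ∈ S := by
    have hlim : Tendsto (fun n => P3^[n] T1) atTop (𝓝 f) := by
      rw [tendsto_iff_norm_sub_tendsto_zero]
      have hb : ∀ n, ‖P3^[n] T1 - f‖ ≤ (‖e‖ + ‖f‖) * (1 / 4) * (7 / 8) ^ n := by
        intro n
        rw [hit n]
        have e1 : e * P3^[n] (y 0) + f * (1 - P3^[n] (y 1)) - f =
            e * P3^[n] (y 0) - f * P3^[n] (y 1) := by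
          rw [mul_sub, mul_one]; abel
        rw [e1]
        have a1 := norm_sub_le (e * P3^[n] (y 0)) (f * P3^[n] (y 1))
        have a2 := norm_mul_le e (P3^[n] (y 0))
        have a3 := norm_mul_le f (P3^[n] (y 1))
        have a4 := mul_le_mul_of_nonneg_left (P3_iter_norm (y 0) (hn 0) n) (norm_nonneg e)
        have a5 := mul_le_mul_of_nonneg_left (P3_iter_norm (y 1) (hn 1) n) (norm_nonneg f)
        calc ‖e * P3^[n] (y 0) - f * P3^[n] (y 1)‖
            ≤ ‖e‖ * ((7 / 8) ^ n * (1 / 4)) + ‖f‖ * ((7 / 8) ^ n * (1 / 4)) := by linarith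
          _ = _ := by ring
      have hz : Tendsto (fun n : ℕ => (‖e‖ + ‖f‖) * (1 / 4) * (7 / 8 : ℝ) ^ n) atTop (𝓝 0) := by
        have := (tendsto_pow_atTop_nhds_zero_of_lt_one (r := (7 / 8 : ℝ)) (by norm_num)
          (by norm_num)).const_mul ((‖e‖ + ‖f‖) * (1 / 4))
        rwa [mul_zero] at this
      exact squeeze_zero (fun n => norm_nonneg _) hb hz
    exact hcl.mem_of_tendsto hlim (Eventually.of_forall hitS)
  have heS : e ∈ S := by
    have : e = 1 - f := by rw [hf1]; abel
    rw [this]
    exact S.sub_mem S.one_mem hfS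
  have hetf : e * T2 * f = e * t := by
    rw [hT2]
    calc e * (e * y 2 + f * y 3 + t) * f
        = e * e * (y 2 * f) + (e * f) * y 3 * f + e * (t * f) := by noncomm_ring
      _ = e * e * (f * y 2) + (e * f) * y 3 * f + e * (e * t) := by
          rw [(hcom _ (hyB 2)).2.1, htf]
      _ = (e * (e * f)) * y 2 + (e * f) * y 3 * f + (e * e) * t := by noncomm_ring
      _ = e * t := by rw [hef, hee]; simp
  have hetS : e * t ∈ S := by
    rw [← hetf]
    exact S.mul_mem (S.mul_mem heS hT2S) hfS
  have htS : t ∈ S := by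
    have h1 : f * t ∈ S := by
      have : star (e * t) ∈ S := star_mem hetS
      rwa [star_mul, hp.ts, hse, hte] at this
    have h2 : t = e * t + f * t := by rw [← add_mul, hef1, one_mul]
    rw [h2]
    exact S.add_mem hetS h1
  -- recover `b` from `e * b`
  have hrec : ∀ b ∈ RC s t, e * b ∈ S → b ∈ S := by
    intro b hb heb
    have h1 : t * (e * b) * t = f * b := by
      calc t * (e * b) * t = (t * e) * (b * t) := by noncomm_ring
        _ = (f * t) * (t * b) := by rw [hte, (hcom _ hb).2.2]
        _ = f * (t * t) * b := by noncomm_ring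
        _ = f * b := by rw [hp.t2, mul_one]
    have h2 : f * b ∈ S := by
      rw [← h1]
      exact S.mul_mem (S.mul_mem htS heb) htS
    have h3 : b = e * b + f * b := by rw [← add_mul, hef1, one_mul]
    rw [h3]
    exact S.add_mem heb h2
  have hrec' : ∀ b ∈ RC s t, f * b ∈ S → b ∈ S := by
    intro b hb heb
    refine hrec b hb ?_
    have h1 : t * (f * b) * t = e * b := by
      calc t * (f * b) * t = (t * f) * (b * t) := by noncomm_ring
        _ = (e * t) * (t * b) := by rw [htf, (hcom _ hb).2.2]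
        _ = e * (t * t) * b := by noncomm_ring
        _ = e * b := by rw [hp.t2, mul_one]
    rw [← h1]
    exact S.mul_mem (S.mul_mem htS heb) htS
  have hete : e * t * e = 0 := by
    rw [mul_assoc, hte, ← mul_assoc, hef, zero_mul]
  have hftf : f * t * f = 0 := by
    rw [mul_assoc, htf, ← mul_assoc, hfe, zero_mul]
  have hy0 : y 0 ∈ S := by
    refine hrec _ (hyB 0) ?_
    have : e * T1 = e * y 0 := by
      rw [hT1, mul_add, ← mul_assoc, ← mul_assoc, hee, hef, zero_mul, add_zero]
    rw [← this]
    exact S.mul_mem heS hT1S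
  have hy1 : y 1 ∈ S := by
    refine hrec' _ (hyB 1) ?_
    have : f - f * T1 = f * y 1 := by
      rw [hT1, mul_add, ← mul_assoc, ← mul_assoc, hff, hfe, zero_mul, zero_add, mul_sub, mul_one]
      abel
    rw [← this]
    exact S.sub_mem hfS (S.mul_mem hfS hT1S)
  have hy2 : y 2 ∈ S := by
    refine hrec _ (hyB 2) ?_
    have : e * T2 * e = e * y 2 := by
      rw [hT2]
      calc e * (e * y 2 + f * y 3 + t) * e
          = (e * e) * (y 2 * e) + (e * f) * y 3 * e + e * t * e := by noncomm_ring
        _ = (e * e) * (e * y 2) + (e * f) * y 3 * e + e * t * e := by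
            rw [(hcom _ (hyB 2)).1]
        _ = (e * e) * y 2 := by
            rw [hef, hete, ← mul_assoc, mul_assoc e e e, hee, hee]; simp
        _ = e * y 2 := by rw [hee]
    rw [← this]
    exact S.mul_mem (S.mul_mem heS hT2S) heS
  have hy3 : y 3 ∈ S := by
    refine hrec' _ (hyB 3) ?_
    have : f * T2 * f = f * y 3 := by
      rw [hT2]
      calc f * (e * y 2 + f * y 3 + t) * f
          = (f * e) * y 2 * f + (f * f) * (y 3 * f) + f * t * f := by noncomm_ring
        _ = (f * e) * y 2 * f + (f * f) * (f * y 3) + f * t * f := by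
            rw [(hcom _ (hyB 3)).2.1]
        _ = (f * f) * y 3 := by
            rw [hfe, hftf, ← mul_assoc, mul_assoc f f f, hff, hff]; simp
        _ = f * y 3 := by rw [hff]
    rw [← this]
    exact S.mul_mem (S.mul_mem hfS hT2S) hfS
  have hyS : ∀ i, y i ∈ S := by
    intro i
    fin_cases i
    · exact hy0
    · exact hy1
    · exact hy2
    · exact hy3
  have hadj : StarAlgebra.adjoin ℂ (Set.range y) ≤ S := by
    refine StarAlgebra.adjoin_le ?_
    rintro _ ⟨i, rfl⟩
    exact hyS i
  have hRS : ∀ x ∈ RC s t, x ∈ S := by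
    intro x hx
    refine hSW x ?_
    intro ε hε
    obtain ⟨z, hz, hxz⟩ := hgen x hx ε hε
    exact ⟨z, hadj hz, hxz⟩
  -- corners
  have hcorner : ∀ z : A, e * z * e ∈ S := by
    intro z
    have hb : e * z * e + t * (e * z * e) * t ∈ RC s t := by
      have hse' : s * e = e := by rw [hsef, sub_mul, hee, hfe, sub_zero]
      have hes' : e * s = e := by rw [hsef, mul_sub, hee, hef, sub_zero]
      rw [mem_RC hp.ss hp.ts]
      constructor
      · rw [mul_add, add_mul]
        congr 1
        · calc s * (e * z * e) = (s * e) * z * e := by noncomm_ring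
            _ = e * z * (e * s) := by rw [hse', hes']
            _ = _ := by noncomm_ring
        · calc s * (t * (e * z * e) * t) = (s * t) * (e * z * e) * t := by noncomm_ring
            _ = -(t * (s * e) * z * e * t) := by rw [hp.st]; noncomm_ring
            _ = -(t * e * z * (e * s) * t) := by rw [hse', hes']
            _ = t * (e * z * e) * (-(s * t)) := by noncomm_ring
            _ = t * (e * z * e) * (t * s) := by rw [hts]
            _ = _ := by noncomm_ring
      · rw [mul_add, add_mul]
        have h1 : t * (t * (e * z * e) * t) = (e * z * e) * t := by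
          calc t * (t * (e * z * e) * t) = (t * t) * (e * z * e) * t := by noncomm_ring
            _ = _ := by rw [hp.t2, one_mul]
        have h2 : t * (e * z * e) * t * t = t * (e * z * e) := by
          rw [mul_assoc, hp.t2, mul_one]
        rw [h1, h2]
        abel
    have h1 : e * (e * z * e + t * (e * z * e) * t) = e * z * e := by
      calc e * (e * z * e + t * (e * z * e) * t)
          = (e * e) * z * e + (e * t * e) * z * e * t := by noncomm_ring
        _ = e * z * e := by rw [hee, hete]; simp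
    rw [← h1]
    exact S.mul_mem heS (hRS _ hb)
  have hall : ∀ x : A, x ∈ S := by
    intro x
    have d1 : e * x * f = (e * (x * t) * e) * t := by
      calc e * x * f = e * x * (f * (t * t)) := by rw [hp.t2, mul_one]
        _ = e * x * ((f * t) * t) := by noncomm_ring
        _ = e * x * ((t * e) * t) := by rw [hte]
        _ = _ := by noncomm_ring
    have d2 : f * x * e = t * (e * (t * x) * e) := by
      calc f * x * e = ((t * t) * f) * x * e := by rw [hp.t2, one_mul]
        _ = t * (t * f) * x * e := by noncomm_ring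
        _ = t * (e * t) * x * e := by rw [htf]
        _ = _ := by noncomm_ring
    have d3 : f * x * f = t * (e * (t * x * t) * e) * t := by
      calc f * x * f = ((t * t) * f) * x * (f * (t * t)) := by rw [hp.t2, one_mul, mul_one]
        _ = t * (t * f) * x * ((f * t) * t) := by noncomm_ring
        _ = t * (e * t) * x * ((t * e) * t) := by rw [htf, hte]
        _ = _ := by noncomm_ring
    have d0 : x = e * x * e + e * x * f + f * x * e + f * x * f := by
      calc x = (e + f) * x * (e + f) := by rw [hef1, one_mul, mul_one]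
        _ = _ := by noncomm_ring
    rw [d0, d1, d2, d3]
    exact S.add_mem (S.add_mem (S.add_mem (hcorner _) (S.mul_mem (hcorner _) htS))
      (S.mul_mem htS (hcorner _))) (S.mul_mem (S.mul_mem htS (hcorner _)) htS)
  intro x
  have := hall x
  have h2 : x ∈ (S : Set A) := this
  rw [hSc] at h2
  exact h2

/-- A pair of anticommuting symmetries exists in every algebra without abelian projections. -/
def PairThm : Prop :=
  ∀ (A : Type) [CStarAlgebra A] (τ : A →ₗ[ℂ] ℂ), TW τ → NoAbA A → ∃ s t : A, Pair s t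

theorem oneGen_of_pair (hP : PairThm) : OneGenThm := by
  intro HYP A _ τ h hsep hno
  obtain ⟨s, t, hp⟩ := hP A τ h hno
  have hW := isW_RC h hp.ss hp.ts
  obtain ⟨y, hy, hgen⟩ := @HYP (RC s t) (cs h _ hW) (rt τ _) (tw_rt h _ hW) (sep_rt h hsep _ hW)
    (noab_RC h hno hp)
  -- rescale
  let c : Fin 4 → ℝ := fun i => 1 / (4 * (‖(y i : A)‖ + 1))
  have hc : ∀ i, 0 < c i := fun i => by positivity
  refine gen_pair h hp (fun i => ((c i : ℝ) : ℂ) • (y i : A)) ?_ ?_ ?_ ?_
  · intro i
    have := congrArg (fun z : RC s t => (z : A)) (hy i)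
    have h2 : star (y i : A) = y i := by simpa using this
    rw [star_smul, h2]
    congr 1
    exact Complex.conj_ofReal _
  · intro i
    exact (RC s t).smul_mem (y i).2 _
  · intro i
    rw [norm_smul, Complex.norm_real, Real.norm_of_nonneg (hc i).le]
    have h0 := norm_nonneg (y i : A)
    show 1 / (4 * (‖(y i : A)‖ + 1)) * ‖(y i : A)‖ ≤ 1 / 4
    rw [div_mul_eq_mul_div, one_mul, div_le_div_iff₀ (by positivity) (by norm_num)]
    linarith
  · intro x hx
    intro ε hε
    obtain ⟨z, hz, hxz⟩ := hgen ⟨x, hx⟩ ε hε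
    refine ⟨(z : A), ?_, ?_⟩
    · have hle : StarAlgebra.adjoin ℂ (Set.range y) ≤
          (StarAlgebra.adjoin ℂ (Set.range fun i => ((c i : ℝ) : ℂ) • (y i : A))).comap
            (RC s t).subtype := by
        refine StarAlgebra.adjoin_le ?_
        rintro _ ⟨i, rfl⟩
        show ((y i : RC s t) : A) ∈ StarAlgebra.adjoin ℂ
          (Set.range fun i => ((c i : ℝ) : ℂ) • (y i : A))
        have h1 : (y i : A) = (((c i)⁻¹ : ℝ) : ℂ) • (((c i : ℝ) : ℂ) • (y i : A)) := by
          rw [smul_smul, ← Complex.ofReal_mul, inv_mul_cancel₀ (hc i).ne']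
          simp
        rw [h1]
        exact StarSubalgebra.smul_mem _ (StarAlgebra.subset_adjoin ℂ _ (Set.mem_range_self i)) _
      exact hle hz
    · rw [n2_rt] at hxz
      simpa using hxz

end Pool.Agent.H649G
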